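import Pool.Agent.H65.AD.TargetsB

/-!
Row GID of the board `adm_modules` (MP_347b49_nt): the local elements at the prime divisors of
`r t`, split off.
-/

set_option autoImplicit false

open MeasureTheory Set Filter
open scoped Real

namespace Pool.Agent.H74.ADM

open Pool.Agent.H31.CN Pool.Agent.H95.AD Pool.Agent.H50.CN Pool.Agent.H65.AD

theorem cm_zero_of_not_sqf (P : Polynomial ℝ) (M : ℝ) (N m : ℕ) (h : ¬ Squarefree m) :
    cm P M N m = 0 := by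
  unfold cm mr
  rw [ArithmeticFunction.moebius_eq_zero_of_not_squarefree h]
  simp

theorem cm_zero_of_lt (P : Polynomial ℝ) (M : ℝ) (N m : ℕ) (h : ¬ (m : ℝ) ≤ M) :
    cm P M N m = 0 := by
  unfold cm
  rw [if_neg fun h' => h h'.1]

theorem coprime_div_gcd {m w : ℕ} (hm : Squarefree m) : Nat.Coprime (m / Nat.gcd m w) w := by
  have hm0 : m ≠ 0 := hm.ne_zero
  rw [Nat.coprime_iff_gcd_eq_one]
  by_contra hne
  obtain ⟨p, hp, hpd⟩ := Nat.exists_prime_and_dvd hne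
  have h1 : p ∣ m / Nat.gcd m w := hpd.trans (Nat.gcd_dvd_left _ _)
  have h2 : p ∣ w := hpd.trans (Nat.gcd_dvd_right _ _)
  have h3 : p ∣ m := h1.trans (Nat.div_dvd_of_dvd (Nat.gcd_dvd_left _ _))
  have h4 : p ∣ Nat.gcd m w := Nat.dvd_gcd h3 h2
  have h5 : p * p ∣ m := by
    have h6 : p * p ∣ Nat.gcd m w * (m / Nat.gcd m w) := Nat.mul_dvd_mul h4 h1
    rwa [Nat.mul_div_cancel' (Nat.gcd_dvd_left _ _)] at h6
  have h7 := hm p h5
  exact hp.one_lt.ne' (Nat.isUnit_iff.1 h7)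

theorem gcd_mul_eq {n m' w : ℕ} (hn : n ∣ w) (hm : Nat.Coprime m' w) :
    Nat.gcd (n * m') w = n := by
  rw [Nat.Coprime.gcd_mul_right_cancel n hm]
  exact Nat.gcd_eq_left hn

/-- Splitting off the part which divides `w`. -/
theorem one_var {V : Type} [AddCommGroup V] [Module ℝ V] (P : Polynomial ℝ) (M : ℝ) (N w : ℕ)
    (_hM : 0 ≤ M) (hw : w ≠ 0) (F : ℕ → V) :
    ∑ m ∈ Finset.Icc 1 ⌊M⌋₊, cm P M N m • F m = ∑ n ∈ w.divisors,
      ∑ m ∈ (Finset.Icc 1 ⌊M⌋₊).filter (fun m => Nat.Coprime m w),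
        cm P M N (n * m) • F (n * m) := by
  classical
  rw [← Finset.sum_product' (s := w.divisors)
    (t := (Finset.Icc 1 ⌊M⌋₊).filter (fun m => Nat.Coprime m w))
    (f := fun n m => cm P M N (n * m) • F (n * m))]
  have h1 : ∑ m ∈ Finset.Icc 1 ⌊M⌋₊, cm P M N m • F m =
      ∑ m ∈ (Finset.Icc 1 ⌊M⌋₊).filter (fun m => Squarefree m), cm P M N m • F m := by
    refine (Finset.sum_filter_of_ne fun m _ hne => ?_).symm
    by_contra hs
    exact hne (by rw [cm_zero_of_not_sqf P M N m hs, zero_smul])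
  have h2 : ∑ x ∈ w.divisors ×ˢ (Finset.Icc 1 ⌊M⌋₊).filter (fun m => Nat.Coprime m w),
      cm P M N (x.1 * x.2) • F (x.1 * x.2) =
      ∑ x ∈ (w.divisors ×ˢ (Finset.Icc 1 ⌊M⌋₊).filter (fun m => Nat.Coprime m w)).filter
        (fun x => Squarefree (x.1 * x.2) ∧ x.1 * x.2 ≤ ⌊M⌋₊),
      cm P M N (x.1 * x.2) • F (x.1 * x.2) := by
    refine (Finset.sum_filter_of_ne fun x _ hne => ?_).symm
    by_contra hs
    apply hne
    by_cases h3 : Squarefree (x.1 * x.2)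
    · have h4 : ¬ ((x.1 * x.2 : ℕ) : ℝ) ≤ M := fun h => hs ⟨h3, Nat.le_floor h⟩
      rw [cm_zero_of_lt P M N _ h4, zero_smul]
    · rw [cm_zero_of_not_sqf P M N _ h3, zero_smul]
  rw [h1, h2]
  refine Finset.sum_nbij' (fun m => (Nat.gcd m w, m / Nat.gcd m w)) (fun x => x.1 * x.2)
    ?_ ?_ ?_ ?_ ?_
  · intro m hm
    rw [Finset.mem_filter, Finset.mem_Icc] at hm
    obtain ⟨⟨h3, h4⟩, h5⟩ := hm
    have h6 : Nat.gcd m w * (m / Nat.gcd m w) = m := Nat.mul_div_cancel' (Nat.gcd_dvd_left _ _)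
    have h7 : 0 < m / Nat.gcd m w :=
      Nat.div_pos (Nat.gcd_le_left _ (by omega)) (Nat.gcd_pos_of_pos_left _ (by omega))
    rw [Finset.mem_filter, Finset.mem_product, Finset.mem_filter, Finset.mem_Icc,
      Nat.mem_divisors]
    dsimp only
    rw [h6]
    exact ⟨⟨⟨Nat.gcd_dvd_right _ _, hw⟩, ⟨h7, (Nat.div_le_self _ _).trans h4⟩,
      coprime_div_gcd h5⟩, h5, h4⟩
  · intro x hx
    rw [Finset.mem_filter, Finset.mem_product, Finset.mem_filter, Finset.mem_Icc,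
      Nat.mem_divisors] at hx
    obtain ⟨⟨⟨h3, _⟩, ⟨h4, _⟩, h5⟩, h6, h7⟩ := hx
    rw [Finset.mem_filter, Finset.mem_Icc]
    exact ⟨⟨Nat.pos_of_ne_zero h6.ne_zero, h7⟩, h6⟩
  · intro m _
    exact Nat.mul_div_cancel' (Nat.gcd_dvd_left _ _)
  · rintro ⟨n, m'⟩ hx
    rw [Finset.mem_filter, Finset.mem_product, Finset.mem_filter, Finset.mem_Icc,
      Nat.mem_divisors] at hx
    obtain ⟨⟨⟨h3, _⟩, ⟨h4, _⟩, h5⟩, h6, h7⟩ := hx
    dsimp only at h3 h4 h5 h6 h7 ⊢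
    rw [gcd_mul_eq h3 h5, Nat.mul_div_cancel_left _ (Nat.pos_of_dvd_of_pos h3
      (Nat.pos_of_ne_zero hw))]
  · intro m _
    dsimp only
    rw [Nat.mul_div_cancel' (Nat.gcd_dvd_left _ _)]

theorem LG_split (r t n₁ n₂ m₁ m₂ : ℕ) (hw : r * t ≠ 0) (h1 : n₁ ∣ r * t) (h2 : n₂ ∣ r * t)
    (h3 : m₁ ≠ 0) (h4 : m₂ ≠ 0) (h5 : Nat.Coprime m₁ (r * t)) (h6 : Nat.Coprime m₂ (r * t)) :
    LG r t (n₁ * m₁) (n₂ * m₂) =
      (∏ p ∈ (r * t).primeFactors, gel (ec (cl r t p) (tt p n₁ n₂)) (tt p n₁ n₂) p) *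
        ∏ p ∈ (m₁ * m₂).primeFactors, gel (ec 0 (tt p m₁ m₂)) (tt p m₁ m₂) p := by
  classical
  have hn1 : n₁ ≠ 0 := fun h => hw (by rw [h, Nat.zero_dvd] at h1; exact h1)
  have hn2 : n₂ ≠ 0 := fun h => hw (by rw [h, Nat.zero_dvd] at h2; exact h2)
  have hset : (n₁ * m₁ * (n₂ * m₂) * (r * t)).primeFactors =
      (r * t).primeFactors ∪ (m₁ * m₂).primeFactors := by
    ext p
    rw [Finset.mem_union, Nat.mem_primeFactors, Nat.mem_primeFactors, Nat.mem_primeFactors]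
    constructor
    · rintro ⟨hp, hd, _⟩
      rcases (hp.dvd_mul).1 hd with h7 | h7
      · rcases (hp.dvd_mul).1 h7 with h8 | h8
        · rcases (hp.dvd_mul).1 h8 with h9 | h9
          · exact Or.inl ⟨hp, h9.trans h1, hw⟩
          · exact Or.inr ⟨hp, h9.mul_right _, Nat.mul_ne_zero h3 h4⟩
        · rcases (hp.dvd_mul).1 h8 with h9 | h9
          · exact Or.inl ⟨hp, h9.trans h2, hw⟩
          · exact Or.inr ⟨hp, h9.mul_left _, Nat.mul_ne_zero h3 h4⟩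
      · exact Or.inl ⟨hp, h7, hw⟩
    · have hne : n₁ * m₁ * (n₂ * m₂) * (r * t) ≠ 0 :=
        Nat.mul_ne_zero (Nat.mul_ne_zero (Nat.mul_ne_zero hn1 h3) (Nat.mul_ne_zero hn2 h4)) hw
      rintro (⟨hp, hd, _⟩ | ⟨hp, hd, _⟩)
      · exact ⟨hp, hd.mul_left _, hne⟩
      · refine ⟨hp, (Dvd.dvd.mul_right ?_ _), hne⟩
        rcases (hp.dvd_mul).1 hd with h7 | h7
        · exact (h7.mul_left _).mul_right _
        · exact (h7.mul_left _).mul_left _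
  have hcop : ∀ p : ℕ, p.Prime → p ∣ r * t → ¬ p ∣ m₁ ∧ ¬ p ∣ m₂ := by
    intro p hp hd
    refine ⟨fun h => ?_, fun h => ?_⟩
    · exact Nat.not_coprime_of_dvd_of_dvd hp.one_lt h hd h5
    · exact Nat.not_coprime_of_dvd_of_dvd hp.one_lt h hd h6
  have hdisj : Disjoint (r * t).primeFactors (m₁ * m₂).primeFactors := by
    rw [Finset.disjoint_left]
    intro p hp hp'
    rw [Nat.mem_primeFactors] at hp hp'
    obtain ⟨h7, h8⟩ := hcop p hp.1 hp.2.1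
    rcases (hp.1.dvd_mul).1 hp'.2.1 with h9 | h9
    · exact h7 h9
    · exact h8 h9
  unfold LG
  rw [hset, Finset.prod_union hdisj]
  congr 1
  · refine Finset.prod_congr rfl fun p hp => ?_
    rw [Nat.mem_primeFactors] at hp
    obtain ⟨h7, h8⟩ := hcop p hp.1 hp.2.1
    have h9 : tt p (n₁ * m₁) (n₂ * m₂) = tt p n₁ n₂ := by
      unfold tt
      have e1 : p ∣ n₁ * m₁ ↔ p ∣ n₁ := by
        rw [hp.1.dvd_mul]
        exact ⟨fun h => h.resolve_right h7, Or.inl⟩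
      have e2 : p ∣ n₂ * m₂ ↔ p ∣ n₂ := by
        rw [hp.1.dvd_mul]
        exact ⟨fun h => h.resolve_right h8, Or.inl⟩
      simp only [e1, e2]
    rw [h9]
  · refine Finset.prod_congr rfl fun p hp => ?_
    rw [Nat.mem_primeFactors] at hp
    have hpw : ¬ p ∣ r * t := by
      intro h
      obtain ⟨h7, h8⟩ := hcop p hp.1 h
      rcases (hp.1.dvd_mul).1 hp.2.1 with h9 | h9
      · exact h7 h9
      · exact h8 h9
    have h7 : cl r t p = 0 := by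
      unfold cl
      rw [if_neg fun h => hpw (h.mul_right _), if_neg fun h => hpw (h.mul_left _)]
    have h9 : tt p (n₁ * m₁) (n₂ * m₂) = tt p m₁ m₂ := by
      unfold tt
      have e1 : p ∣ n₁ * m₁ ↔ p ∣ m₁ := by
        rw [hp.1.dvd_mul]
        exact ⟨fun h => h.resolve_left fun h' => hpw (h'.trans h1), Or.inr⟩
      have e2 : p ∣ n₂ * m₂ ↔ p ∣ m₂ := by
        rw [hp.1.dvd_mul]
        exact ⟨fun h => h.resolve_left fun h' => hpw (h'.trans h2), Or.inr⟩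
      simp only [e1, e2]
    rw [h7, h9]

theorem pf_GID : T_GID := by
  classical
  intro P M N r t hM hN hw hco
  have hw0 : r * t ≠ 0 := hw.ne_zero
  have hM0 : 0 ≤ M := by linarith
  have h1 : GS P M N r t = ∑ m₁ ∈ Finset.Icc 1 ⌊M⌋₊, cm P M N m₁ •
      ∑ m₂ ∈ Finset.Icc 1 ⌊M⌋₊, cm P M N m₂ • LG r t m₁ m₂ := by
    unfold GS
    refine Finset.sum_congr rfl fun m₁ _ => ?_
    rw [Finset.smul_sum]
    refine Finset.sum_congr rfl fun m₂ _ => ?_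
    rw [smul_smul]
  rw [h1, one_var P M N (r * t) hM0 hw0]
  have h2 : ∀ n₁ ∈ (r * t).divisors, ∀ m₁ ∈ (Finset.Icc 1 ⌊M⌋₊).filter
      (fun m => Nat.Coprime m (r * t)), cm P M N (n₁ * m₁) •
        ∑ m₂ ∈ Finset.Icc 1 ⌊M⌋₊, cm P M N m₂ • LG r t (n₁ * m₁) m₂ =
      ∑ n₂ ∈ (r * t).divisors, ∑ m₂ ∈ (Finset.Icc 1 ⌊M⌋₊).filter
        (fun m => Nat.Coprime m (r * t)),
        (∏ p ∈ (r * t).primeFactors, gel (ec (cl r t p) (tt p n₁ n₂)) (tt p n₁ n₂) p) *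
          ((cm P M N (n₁ * m₁) * cm P M N (n₂ * m₂)) •
            ∏ p ∈ (m₁ * m₂).primeFactors, gel (ec 0 (tt p m₁ m₂)) (tt p m₁ m₂) p) := by
    intro n₁ hn₁ m₁ hm₁
    rw [one_var P M N (r * t) hM0 hw0, Finset.smul_sum]
    refine Finset.sum_congr rfl fun n₂ hn₂ => ?_
    rw [Finset.smul_sum]
    refine Finset.sum_congr rfl fun m₂ hm₂ => ?_
    rw [Finset.mem_filter, Finset.mem_Icc] at hm₁ hm₂
    rw [LG_split r t n₁ n₂ m₁ m₂ hw0 (Nat.dvd_of_mem_divisors hn₁) (Nat.dvd_of_mem_divisors hn₂)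
      (by omega) (by omega) hm₁.2 hm₂.2, smul_smul, mul_smul_comm]
  rw [Finset.sum_congr rfl fun n₁ hn₁ => Finset.sum_congr rfl fun m₁ hm₁ => h2 n₁ hn₁ m₁ hm₁]
  refine Finset.sum_congr rfl fun n₁ _ => ?_
  rw [Finset.sum_comm]
  refine Finset.sum_congr rfl fun n₂ _ => ?_
  unfold QW
  rw [Finset.mul_sum]
  refine Finset.sum_congr rfl fun m₁ _ => ?_
  rw [Finset.mul_sum]

end Pool.Agent.H74.ADM
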