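import Pool.Agent.H65.AD.TargetsC

/-!
Row LLB of the board `adm_modules` (MP_347b49_nt): the local functions of a pair `(r, t)`, summed.
-/

set_option autoImplicit false

open MeasureTheory Set Filter
open scoped Real

namespace Pool.Agent.H74.ADM.LLB

open Pool.Agent.H31.CN Pool.Agent.H95.AD Pool.Agent.H50.CN Pool.Agent.H65.AD

/-- The harmonic sum. -/
noncomputable def HH (n : ℕ) : ℝ := ∑ j ∈ Finset.Icc 1 n, 1 / (j : ℝ)

theorem HH_nonneg (n : ℕ) : 0 ≤ HH n := Finset.sum_nonneg fun j _ => by positivity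

theorem HH_le (X : ℝ) (hX : 1 ≤ X) : HH ⌊X⌋₊ ≤ 1 + Real.log X := by
  have h1 := harmonic_floor_le_one_add_log X hX
  have h2 : ((harmonic ⌊X⌋₊ : ℚ) : ℝ) = HH ⌊X⌋₊ := by
    rw [HH, harmonic_eq_sum_Icc]
    push_cast
    simp only [one_div]
  rwa [h2] at h1

/-! ## The sum over multiples -/

theorem dvd_sum (n b : ℕ) (hb : 0 < b) :
    ∑ e ∈ (Finset.Icc 1 n).filter (fun e => b ∣ e), 1 / (e : ℝ) ≤ 1 / (b : ℝ) * HH n := by
  classical
  have hb' : (0 : ℝ) < b := by exact_mod_cast hb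
  have h1 : (Finset.Icc 1 n).filter (fun e => b ∣ e) ⊆ (Finset.Icc 1 n).image (fun j => b * j) := by
    intro e he
    rw [Finset.mem_filter, Finset.mem_Icc] at he
    obtain ⟨j, hj⟩ := he.2
    rw [Finset.mem_image]
    refine ⟨j, ?_, hj.symm⟩
    rw [Finset.mem_Icc]
    constructor
    · rcases Nat.eq_zero_or_pos j with h | h
      · rw [h] at hj
        omega
      · exact h
    · calc j = 1 * j := (one_mul j).symm
        _ ≤ b * j := Nat.mul_le_mul_right j hb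
        _ = e := hj.symm
        _ ≤ n := he.1.2
  calc ∑ e ∈ (Finset.Icc 1 n).filter (fun e => b ∣ e), 1 / (e : ℝ)
      ≤ ∑ e ∈ (Finset.Icc 1 n).image (fun j => b * j), 1 / (e : ℝ) :=
        Finset.sum_le_sum_of_subset_of_nonneg h1 fun e _ _ => by positivity
    _ = ∑ j ∈ Finset.Icc 1 n, 1 / ((b * j : ℕ) : ℝ) :=
        Finset.sum_image fun x _ y _ h => Nat.eq_of_mul_eq_mul_left hb h
    _ = 1 / (b : ℝ) * HH n := by
        rw [HH, Finset.mul_sum]
        refine Finset.sum_congr rfl fun j _ => ?_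
        push_cast
        rw [one_div_mul_one_div]

/-- The mass of the coefficients. -/
noncomputable def mu (q : ℕ → ℕ → ℝ) (p : ℕ) : ℝ :=
  ∑ i ∈ Finset.range 3, ∑ k ∈ Finset.range 3, |q i k| / (p : ℝ) ^ (i + k)

theorem mu_nonneg (q : ℕ → ℕ → ℝ) (p : ℕ) : 0 ≤ mu q p :=
  Finset.sum_nonneg fun i _ => Finset.sum_nonneg fun k _ => by positivity

theorem abs_loc_le (q : ℕ → ℕ → ℝ) (p e A : ℕ) : |loc q p e A| ≤
    ∑ i ∈ Finset.range 3, ∑ k ∈ Finset.range 3, if p ^ i ∣ A ∧ p ^ k ∣ e then |q i k| else 0 := by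
  unfold loc
  refine (Finset.abs_sum_le_sum_abs _ _).trans (Finset.sum_le_sum fun i _ => ?_)
  refine (Finset.abs_sum_le_sum_abs _ _).trans (Finset.sum_le_sum fun k _ => ?_)
  split_ifs
  · exact le_rfl
  · rw [abs_zero]

/-- The sum over `e` and `A` of the product of the local functions. -/
theorem inner (n : ℕ) (q : ℕ → ℕ → ℕ → ℝ) (S : Finset ℕ) (hS : ∀ p ∈ S, p.Prime) :
    ∀ a b : ℕ, 0 < a → 0 < b → (∀ p ∈ S, ¬ p ∣ a) → (∀ p ∈ S, ¬ p ∣ b) →
    ∑ y ∈ ((Finset.Icc 1 n) ×ˢ (Finset.Icc 1 n)).filter (fun y => b ∣ y.1 ∧ a ∣ y.2),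
      (∏ p ∈ S, |loc (q p) p y.1 y.2|) / ((y.1 : ℝ) * y.2) ≤
      1 / ((a : ℝ) * b) * HH n ^ 2 * ∏ p ∈ S, mu (q p) p := by
  classical
  induction S using Finset.induction_on with
  | empty =>
    intro a b ha hb _ _
    have h1 : ((Finset.Icc 1 n) ×ˢ (Finset.Icc 1 n)).filter (fun y => b ∣ y.1 ∧ a ∣ y.2) =
        ((Finset.Icc 1 n).filter (fun e => b ∣ e)) ×ˢ ((Finset.Icc 1 n).filter (fun A => a ∣ A)) := by
      ext y
      simp only [Finset.mem_filter, Finset.mem_product]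
      tauto
    simp only [Finset.prod_empty]
    rw [h1, Finset.sum_product]
    have h2 : ∑ x ∈ (Finset.Icc 1 n).filter (fun e => b ∣ e),
        ∑ y ∈ (Finset.Icc 1 n).filter (fun A => a ∣ A), 1 / ((x : ℝ) * y) =
        (∑ x ∈ (Finset.Icc 1 n).filter (fun e => b ∣ e), 1 / (x : ℝ)) *
          ∑ y ∈ (Finset.Icc 1 n).filter (fun A => a ∣ A), 1 / (y : ℝ) := by
      rw [Finset.sum_mul_sum]
      refine Finset.sum_congr rfl fun x _ => Finset.sum_congr rfl fun y _ => ?_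
      rw [one_div_mul_one_div]
    rw [h2, mul_one]
    have h3 := dvd_sum n b hb
    have h4 := dvd_sum n a ha
    have h5 : 0 ≤ ∑ y ∈ (Finset.Icc 1 n).filter (fun A => a ∣ A), 1 / (y : ℝ) :=
      Finset.sum_nonneg fun y _ => by positivity
    calc (∑ x ∈ (Finset.Icc 1 n).filter (fun e => b ∣ e), 1 / (x : ℝ)) *
          ∑ y ∈ (Finset.Icc 1 n).filter (fun A => a ∣ A), 1 / (y : ℝ)
        ≤ (1 / (b : ℝ) * HH n) * (1 / (a : ℝ) * HH n) :=
          mul_le_mul h3 h4 h5 (mul_nonneg (by positivity) (HH_nonneg n))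
      _ = 1 / ((a : ℝ) * b) * HH n ^ 2 := by
          rw [show 1 / ((a : ℝ) * b) = 1 / (a : ℝ) * (1 / b) by rw [one_div_mul_one_div]]
          ring
  | insert p S hpS ih =>
    intro a b ha hb hSa hSb
    have hp : p.Prime := hS p (Finset.mem_insert_self p S)
    have hS' : ∀ p' ∈ S, p'.Prime := fun p' h => hS p' (Finset.mem_insert_of_mem h)
    have hp0 : (0 : ℝ) < p := by exact_mod_cast hp.pos
    set Fl : Finset (ℕ × ℕ) :=
      ((Finset.Icc 1 n) ×ˢ (Finset.Icc 1 n)).filter (fun y => b ∣ y.1 ∧ a ∣ y.2) with hFl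
    set Pr : ℕ × ℕ → ℝ := fun y => (∏ p ∈ S, |loc (q p) p y.1 y.2|) / ((y.1 : ℝ) * y.2) with hPr
    have hPr0 : ∀ y, 0 ≤ Pr y := fun y =>
      div_nonneg (Finset.prod_nonneg fun _ _ => abs_nonneg _) (by positivity)
    have h1 : ∀ y ∈ Fl, (∏ p ∈ insert p S, |loc (q p) p y.1 y.2|) / ((y.1 : ℝ) * y.2) ≤
        ∑ i ∈ Finset.range 3, ∑ k ∈ Finset.range 3,
          |q p i k| * (if p ^ i ∣ y.2 ∧ p ^ k ∣ y.1 then Pr y else 0) := by
      intro y _
      rw [Finset.prod_insert hpS, mul_div_assoc]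
      refine (mul_le_mul_of_nonneg_right (abs_loc_le (q p) p y.1 y.2) (hPr0 y)).trans ?_
      rw [Finset.sum_mul]
      refine le_of_eq (Finset.sum_congr rfl fun i _ => ?_)
      rw [Finset.sum_mul]
      refine Finset.sum_congr rfl fun k _ => ?_
      split_ifs
      · rfl
      · rw [zero_mul, mul_zero]
    refine (Finset.sum_le_sum h1).trans ?_
    rw [Finset.sum_comm]
    have h2 : ∀ i ∈ Finset.range 3, ∑ y ∈ Fl, ∑ k ∈ Finset.range 3,
        |q p i k| * (if p ^ i ∣ y.2 ∧ p ^ k ∣ y.1 then Pr y else 0) ≤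
        ∑ k ∈ Finset.range 3, |q p i k| * (1 / (((a * p ^ i : ℕ) : ℝ) * ((b * p ^ k : ℕ) : ℝ)) *
          HH n ^ 2 * ∏ p ∈ S, mu (q p) p) := by
      intro i _
      rw [Finset.sum_comm]
      refine Finset.sum_le_sum fun k _ => ?_
      rw [← Finset.mul_sum]
      refine mul_le_mul_of_nonneg_left ?_ (abs_nonneg _)
      rw [← Finset.sum_filter]
      have h3 : Fl.filter (fun y => p ^ i ∣ y.2 ∧ p ^ k ∣ y.1) =
          ((Finset.Icc 1 n) ×ˢ (Finset.Icc 1 n)).filter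
            (fun y => b * p ^ k ∣ y.1 ∧ a * p ^ i ∣ y.2) := by
        ext y
        simp only [hFl, Finset.mem_filter]
        have ca : Nat.Coprime a (p ^ i) := Nat.Coprime.pow_right i
          ((Nat.Prime.coprime_iff_not_dvd hp).2 (hSa p (Finset.mem_insert_self p S))).symm
        have cb : Nat.Coprime b (p ^ k) := Nat.Coprime.pow_right k
          ((Nat.Prime.coprime_iff_not_dvd hp).2 (hSb p (Finset.mem_insert_self p S))).symm
        constructor
        · rintro ⟨⟨g1, g2, g3⟩, g4, g5⟩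
          exact ⟨g1, cb.mul_dvd_of_dvd_of_dvd g2 g5, ca.mul_dvd_of_dvd_of_dvd g3 g4⟩
        · rintro ⟨g1, g2, g3⟩
          exact ⟨⟨g1, (Dvd.intro _ rfl).trans g2, (Dvd.intro _ rfl).trans g3⟩,
            (Dvd.intro_left _ rfl).trans g3, (Dvd.intro_left _ rfl).trans g2⟩
      rw [h3]
      have hnd : ∀ (c j : ℕ), (∀ p' ∈ insert p S, ¬ p' ∣ c) → ∀ p' ∈ S, ¬ p' ∣ c * p ^ j := by
        intro c j hc p' hp' hd
        rcases ((hS' p' hp').dvd_mul).1 hd with g | g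
        · exact hc p' (Finset.mem_insert_of_mem hp') g
        · have := (hS' p' hp').dvd_of_dvd_pow g
          rw [Nat.prime_dvd_prime_iff_eq (hS' p' hp') hp] at this
          rw [this] at hp'
          exact hpS hp'
      exact ih hS' (a * p ^ i) (b * p ^ k) (Nat.mul_pos ha (pow_pos hp.pos i))
        (Nat.mul_pos hb (pow_pos hp.pos k)) (hnd a i hSa) (hnd b k hSb)
    refine (Finset.sum_le_sum h2).trans (le_of_eq ?_)
    rw [Finset.prod_insert hpS, mu, Finset.sum_mul, Finset.mul_sum]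
    refine Finset.sum_congr rfl fun i _ => ?_
    rw [Finset.sum_mul, Finset.mul_sum]
    refine Finset.sum_congr rfl fun k _ => ?_
    push_cast
    have ha' : (0 : ℝ) < a := by exact_mod_cast ha
    have hb' : (0 : ℝ) < b := by exact_mod_cast hb
    field_simp
    ring

/-! ## Sums over squarefree numbers -/

/-- The sets of prime divisors of the squarefree numbers up to `n`. -/
noncomputable def TT (n : ℕ) : Finset (Finset ℕ) :=
  ((Finset.Icc 1 n).filter (fun m => Squarefree m)).image Nat.primeFactors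

theorem sum_TT {n : ℕ} (G : Finset ℕ → ℝ) :
    ∑ m ∈ (Finset.Icc 1 n).filter (fun m => Squarefree m), G m.primeFactors = ∑ T ∈ TT n, G T := by
  unfold TT
  rw [Finset.sum_image]
  intro a ha b hb h
  rw [Finset.mem_coe, Finset.mem_filter] at ha hb
  rw [← Nat.prod_primeFactors_of_squarefree ha.2, ← Nat.prod_primeFactors_of_squarefree hb.2]
  exact Finset.prod_congr h fun _ _ => rfl

theorem TT_sub {n : ℕ} {T U : Finset ℕ} (hT : T ∈ TT n) (hU : U ⊆ T) : U ∈ TT n := by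
  unfold TT at hT ⊢
  rw [Finset.mem_image] at hT ⊢
  obtain ⟨m, hm, rfl⟩ := hT
  rw [Finset.mem_filter, Finset.mem_Icc] at hm
  have hUp : ∀ p ∈ U, p.Prime := fun p hp => Nat.prime_of_mem_primeFactors (hU hp)
  have hdvd : ∏ p ∈ U, p ∣ m := by
    conv_rhs => rw [← Nat.prod_primeFactors_of_squarefree hm.2]
    exact Finset.prod_dvd_prod_of_subset _ _ _ hU
  refine ⟨∏ p ∈ U, p, ?_, Nat.primeFactors_prod hUp⟩
  rw [Finset.mem_filter, Finset.mem_Icc]
  exact ⟨⟨Nat.pos_of_dvd_of_pos hdvd (by omega), (Nat.le_of_dvd (by omega) hdvd).trans hm.1.2⟩,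
    hm.2.squarefree_of_dvd hdvd⟩

theorem mem_TT_prime {n : ℕ} {T : Finset ℕ} (hT : T ∈ TT n) : ∀ p ∈ T, p.Prime := by
  unfold TT at hT
  rw [Finset.mem_image] at hT
  obtain ⟨m, _, rfl⟩ := hT
  exact fun p hp => Nat.prime_of_mem_primeFactors hp

theorem mul_TT (n : ℕ) (f g : ℕ → ℝ) (hf : ∀ p, 0 ≤ f p) (hg : ∀ p, 0 ≤ g p) :
    ∑ T ∈ TT n, ∏ p ∈ T, (f p + g p) ≤
      (∑ T ∈ TT n, ∏ p ∈ T, f p) * ∑ T ∈ TT n, ∏ p ∈ T, g p := by
  classical
  have h1 : ∑ T ∈ TT n, ∏ p ∈ T, (f p + g p) =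
      ∑ x ∈ (TT n).sigma (fun T => T.powerset), (∏ p ∈ x.2, f p) * ∏ p ∈ x.1 \ x.2, g p := by
    rw [Finset.sum_sigma]
    refine Finset.sum_congr rfl fun T _ => ?_
    rw [Finset.prod_add]
  have h2 : ∑ x ∈ (TT n).sigma (fun T => T.powerset), (∏ p ∈ x.2, f p) * ∏ p ∈ x.1 \ x.2, g p =
      ∑ y ∈ ((TT n).sigma (fun T => T.powerset)).image (fun x => (x.2, x.1 \ x.2)),
        (∏ p ∈ y.1, f p) * ∏ p ∈ y.2, g p := by
    rw [Finset.sum_image]
    rintro ⟨T, U⟩ hx ⟨T', U'⟩ hx' h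
    rw [Finset.mem_coe, Finset.mem_sigma, Finset.mem_powerset] at hx hx'
    simp only [Prod.mk.injEq] at h
    obtain ⟨h3, h4⟩ := h
    dsimp only at hx hx'
    subst h3
    have h5 : T = T' := by
      rw [← Finset.union_sdiff_of_subset hx.2, ← Finset.union_sdiff_of_subset hx'.2, h4]
    rw [h5]
  rw [h1, h2, Finset.sum_mul_sum, ← Finset.sum_product']
  refine Finset.sum_le_sum_of_subset_of_nonneg ?_ fun y _ _ =>
    mul_nonneg (Finset.prod_nonneg fun p _ => hf p) (Finset.prod_nonneg fun p _ => hg p)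
  intro y hy
  rw [Finset.mem_image] at hy
  obtain ⟨⟨T, U⟩, hx, rfl⟩ := hy
  rw [Finset.mem_sigma, Finset.mem_powerset] at hx
  rw [Finset.mem_product]
  exact ⟨TT_sub hx.1 hx.2, TT_sub hx.1 Finset.sdiff_subset⟩

theorem sum_one_div (n : ℕ) : ∑ T ∈ TT n, ∏ p ∈ T, (1 / (p : ℝ)) ≤ HH n := by
  rw [← sum_TT (fun T => ∏ p ∈ T, (1 / (p : ℝ)))]
  calc ∑ m ∈ (Finset.Icc 1 n).filter (fun m => Squarefree m), ∏ p ∈ m.primeFactors, (1 / (p : ℝ))
      = ∑ m ∈ (Finset.Icc 1 n).filter (fun m => Squarefree m), 1 / (m : ℝ) := by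
        refine Finset.sum_congr rfl fun m hm => ?_
        rw [Finset.mem_filter] at hm
        rw [Finset.prod_div_distrib, Finset.prod_const_one]
        congr 1
        conv_rhs => rw [← Nat.prod_primeFactors_of_squarefree hm.2]
        push_cast
        rfl
    _ ≤ HH n := Finset.sum_le_sum_of_subset_of_nonneg (Finset.filter_subset _ _)
        fun m _ _ => by positivity

theorem sum_c_div (n c : ℕ) : ∑ T ∈ TT n, ∏ p ∈ T, ((c : ℝ) / p) ≤ HH n ^ c := by
  classical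
  induction c with
  | zero =>
    simp only [Nat.cast_zero, zero_div, pow_zero]
    calc ∑ T ∈ TT n, ∏ p ∈ T, (0 : ℝ) = ∑ T ∈ TT n, if T = ∅ then (1 : ℝ) else 0 := by
          refine Finset.sum_congr rfl fun T _ => ?_
          split_ifs with h
          · rw [h, Finset.prod_empty]
          · obtain ⟨p, hp⟩ := Finset.nonempty_iff_ne_empty.2 h
            exact Finset.prod_eq_zero hp rfl
      _ ≤ 1 := by
          rw [Finset.sum_ite_eq' (TT n) ∅ (fun _ => (1 : ℝ))]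
          split_ifs <;> norm_num
  | succ c ih =>
    have h1 : ∀ T : Finset ℕ, ∏ p ∈ T, (((c + 1 : ℕ) : ℝ) / p) =
        ∏ p ∈ T, ((c : ℝ) / p + 1 / (p : ℝ)) := by
      intro T
      refine Finset.prod_congr rfl fun p _ => ?_
      push_cast
      rw [add_div]
    simp only [h1]
    refine (mul_TT n (fun p => (c : ℝ) / p) (fun p => 1 / (p : ℝ)) (fun p => by positivity)
      (fun p => by positivity)).trans ?_
    rw [pow_succ]
    exact mul_le_mul ih (sum_one_div n)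
      (Finset.sum_nonneg fun T _ => Finset.prod_nonneg fun p _ => by positivity)
      (pow_nonneg (HH_nonneg n) c)

theorem sum_ind (n : ℕ) (W : Finset ℕ) :
    ∑ T ∈ TT n, ∏ p ∈ T, (if p ∈ W then (1 : ℝ) else 0) ≤ 2 ^ W.card := by
  classical
  have h1 : ∀ T : Finset ℕ, ∏ p ∈ T, (if p ∈ W then (1 : ℝ) else 0) =
      if T ∈ W.powerset then (1 : ℝ) else 0 := by
    intro T
    split_ifs with h
    · rw [Finset.mem_powerset] at h
      exact Finset.prod_eq_one fun p hp => if_pos (h hp)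
    · rw [Finset.mem_powerset, Finset.subset_iff] at h
      push Not at h
      obtain ⟨p, hp, hpW⟩ := h
      exact Finset.prod_eq_zero hp (if_neg hpW)
  simp only [h1]
  rw [← Finset.sum_filter, Finset.sum_const, nsmul_eq_mul, mul_one]
  have h2 : (TT n).filter (fun T => T ∈ W.powerset) ⊆ W.powerset := fun T hT =>
    (Finset.mem_filter.1 hT).2
  have h3 := Finset.card_le_card h2
  rw [Finset.card_powerset] at h3
  exact_mod_cast h3

/-- The primes of `W` are ignored. -/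
theorem sum_off (n c : ℕ) (W : Finset ℕ) :
    ∑ T ∈ TT n, ∏ p ∈ T \ W, ((c : ℝ) / p) ≤ 2 ^ W.card * HH n ^ c := by
  classical
  calc ∑ T ∈ TT n, ∏ p ∈ T \ W, ((c : ℝ) / p)
      ≤ ∑ T ∈ TT n, ∏ p ∈ T, ((if p ∈ W then (1 : ℝ) else 0) + (c : ℝ) / p) := by
        refine Finset.sum_le_sum fun T _ => ?_
        have h1 : ∏ p ∈ T \ W, ((c : ℝ) / p) = ∏ p ∈ T, if p ∈ W then (1 : ℝ) else (c : ℝ) / p := by
          rw [← Finset.prod_sdiff (Finset.inter_subset_left : T ∩ W ⊆ T), Finset.sdiff_inter_self_left]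
          have h2 : ∏ p ∈ T ∩ W, (if p ∈ W then (1 : ℝ) else (c : ℝ) / p) = 1 :=
            Finset.prod_eq_one fun p hp => if_pos (Finset.mem_inter.1 hp).2
          rw [h2, mul_one]
          refine Finset.prod_congr rfl fun p hp => ?_
          rw [if_neg (Finset.mem_sdiff.1 hp).2]
        rw [h1]
        refine Finset.prod_le_prod (fun p _ => by split_ifs <;> positivity) fun p _ => ?_
        have h3 : 0 ≤ (c : ℝ) / p := by positivity
        split_ifs <;> linarith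
    _ ≤ (∑ T ∈ TT n, ∏ p ∈ T, (if p ∈ W then (1 : ℝ) else 0)) *
          ∑ T ∈ TT n, ∏ p ∈ T, ((c : ℝ) / p) :=
        mul_TT n _ _ (fun p => by split_ifs <;> norm_num) (fun p => by positivity)
    _ ≤ 2 ^ W.card * HH n ^ c :=
        mul_le_mul (sum_ind n W) (sum_c_div n c)
          (Finset.sum_nonneg fun T _ => Finset.prod_nonneg fun p _ => by positivity)
          (by positivity)

/-- Pairs of squarefree numbers. -/
theorem sum_pairs (n : ℕ) (W : Finset ℕ) :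
    ∑ T₁ ∈ TT n, ∑ T₂ ∈ TT n, ∏ p ∈ (T₁ ∪ T₂) \ W, (6 / (p : ℝ)) ≤
      4 ^ W.card * HH n ^ 18 := by
  classical
  have h1 : ∀ T₁ ∈ TT n, ∑ T₂ ∈ TT n, ∏ p ∈ (T₁ ∪ T₂) \ W, (6 / (p : ℝ)) ≤
      (2 ^ W.card * HH n ^ 6) * ∏ p ∈ T₁ \ W, ((12 : ℕ) / (p : ℝ)) := by
    intro T₁ _
    have h2 : ∀ T₂ : Finset ℕ, ∏ p ∈ (T₁ ∪ T₂) \ W, (6 / (p : ℝ)) =
        (∏ p ∈ T₁ \ W, (6 / (p : ℝ))) * ∏ p ∈ T₂ \ (W ∪ T₁), (((6 : ℕ) : ℝ) / p) := by
      intro T₂
      have h3 : (T₁ ∪ T₂) \ W = (T₁ \ W) ∪ (T₂ \ (W ∪ T₁)) := by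
        ext p
        simp only [Finset.mem_union, Finset.mem_sdiff]
        tauto
      have h4 : Disjoint (T₁ \ W) (T₂ \ (W ∪ T₁)) := by
        rw [Finset.disjoint_left]
        intro p hp hp'
        simp only [Finset.mem_union, Finset.mem_sdiff] at hp hp'
        tauto
      rw [h3, Finset.prod_union h4]
      norm_num
    simp only [h2]
    rw [← Finset.mul_sum]
    have h5 := sum_off n 6 (W ∪ T₁)
    have h6 : (W ∪ T₁).card = W.card + (T₁ \ W).card := by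
      rw [← Finset.union_sdiff_self_eq_union, Finset.card_union_of_disjoint Finset.disjoint_sdiff]
    rw [h6, pow_add] at h5
    have h7 : 0 ≤ ∏ p ∈ T₁ \ W, (6 / (p : ℝ)) := Finset.prod_nonneg fun p _ => by positivity
    refine (mul_le_mul_of_nonneg_left h5 h7).trans (le_of_eq ?_)
    have h8 : ∏ p ∈ T₁ \ W, (((12 : ℕ) : ℝ) / p) =
        2 ^ (T₁ \ W).card * ∏ p ∈ T₁ \ W, (6 / (p : ℝ)) := by
      rw [← Finset.prod_const, ← Finset.prod_mul_distrib]
      refine Finset.prod_congr rfl fun p _ => ?_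
      push_cast
      ring
    rw [h8]
    ring
  refine (Finset.sum_le_sum h1).trans ?_
  rw [← Finset.mul_sum]
  have h2 := sum_off n 12 W
  have h3 : 0 ≤ (2 : ℝ) ^ W.card * HH n ^ 6 := mul_nonneg (by positivity) (pow_nonneg (HH_nonneg n) 6)
  refine (mul_le_mul_of_nonneg_left h2 h3).trans (le_of_eq ?_)
  rw [show (4 : ℝ) = 2 * 2 by norm_num, mul_pow]
  ring

/-! ## The masses -/

theorem mu_zero (j p : ℕ) (hj : j = 1 ∨ j = 2) (hp : 2 ≤ p) : mu (ec 0 j) p ≤ 6 / p := by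
  have hp' : (2 : ℝ) ≤ p := by exact_mod_cast hp
  have hp0 : (0 : ℝ) < p := by linarith
  rcases hj with rfl | rfl
  · simp only [mu, Finset.sum_range_succ, Finset.sum_range_zero, ec]
    rw [le_div_iff₀ hp0]
    norm_num
    field_simp
    norm_num
  · simp only [mu, Finset.sum_range_succ, Finset.sum_range_zero, ec]
    norm_num
    rw [le_div_iff₀ hp0]
    field_simp
    nlinarith

theorem mu_one (j p : ℕ) (hj : j = 0 ∨ j = 1 ∨ j = 2) (hp : 2 ≤ p) :
    mu (ec 1 j) p ≤ 6 / p := by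
  have hp' : (2 : ℝ) ≤ p := by exact_mod_cast hp
  have hp0 : (0 : ℝ) < p := by linarith
  rcases hj with rfl | rfl | rfl
  · simp only [mu, Finset.sum_range_succ, Finset.sum_range_zero, ec]
    norm_num
    rw [le_div_iff₀ hp0]
    field_simp
    norm_num
  · simp only [mu, Finset.sum_range_succ, Finset.sum_range_zero, ec]
    rw [le_div_iff₀ hp0]
    norm_num
    field_simp
    norm_num
  · simp only [mu, Finset.sum_range_succ, Finset.sum_range_zero, ec]
    norm_num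
    rw [le_div_iff₀ hp0]
    field_simp
    nlinarith

theorem mu_two (j p : ℕ) (hj : j = 0 ∨ j = 1 ∨ j = 2) (hp : 2 ≤ p) :
    mu (ec 2 j) p ≤ 6 / (p : ℝ) ^ 2 := by
  have hp' : (2 : ℝ) ≤ p := by exact_mod_cast hp
  have hp0 : (0 : ℝ) < p := by linarith
  have hp2 : (0 : ℝ) < (p : ℝ) ^ 2 := by positivity
  rcases hj with rfl | rfl | rfl
  · simp only [mu, Finset.sum_range_succ, Finset.sum_range_zero, ec]
    norm_num
    rw [le_div_iff₀ hp2]
    field_simp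
    norm_num
  · simp only [mu, Finset.sum_range_succ, Finset.sum_range_zero, ec]
    norm_num
    rw [le_div_iff₀ hp2]
    field_simp
    norm_num
  · simp only [mu, Finset.sum_range_succ, Finset.sum_range_zero, ec]
    norm_num
    rw [le_div_iff₀ hp2]
    field_simp
    norm_num

/-- The bound for the mass at `p`. -/
noncomputable def bnd (r t p : ℕ) : ℝ :=
  if p ∣ r then 6 / (p : ℝ) else if p ∣ t then 6 / (p : ℝ) ^ 2 else 6 / (p : ℝ)

theorem tt_cases (p m₁ m₂ : ℕ) : tt p m₁ m₂ = 0 ∨ tt p m₁ m₂ = 1 ∨ tt p m₁ m₂ = 2 := by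
  unfold tt
  split_ifs <;> simp

theorem mu_le_bnd (r t m₁ m₂ p : ℕ)
    (hp : p ∈ (m₁ * m₂ * (r * t)).primeFactors) :
    mu (ec (cl r t p) (tt p m₁ m₂)) p ≤ bnd r t p := by
  rw [Nat.mem_primeFactors] at hp
  obtain ⟨hpp, hd, _⟩ := hp
  have h2 := hpp.two_le
  unfold bnd cl
  by_cases h3 : p ∣ r
  · rw [if_pos h3, if_pos h3]
    exact mu_one _ p (tt_cases p m₁ m₂) h2
  · rw [if_neg h3, if_neg h3]
    by_cases h4 : p ∣ t
    · rw [if_pos h4, if_pos h4]
      exact mu_two _ p (tt_cases p m₁ m₂) h2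
    · rw [if_neg h4, if_neg h4]
      refine mu_zero _ p ?_ h2
      have h5 : p ∣ m₁ ∨ p ∣ m₂ := by
        rcases (hpp.dvd_mul).1 hd with h | h
        · exact (hpp.dvd_mul).1 h
        · rcases (hpp.dvd_mul).1 h with h' | h'
          · exact absurd h' h3
          · exact absurd h' h4
      unfold tt
      rcases h5 with h5 | h5
      · rw [if_pos h5]
        split_ifs <;> simp
      · rw [if_pos h5]
        split_ifs <;> simp

theorem prod_bnd (r t : ℕ) (hw : Squarefree (r * t)) :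
    ∏ p ∈ (r * t).primeFactors, bnd r t p =
      6 ^ (r * t).primeFactors.card / ((r : ℝ) * (t : ℝ) ^ 2) := by
  classical
  have hr0 : r ≠ 0 := fun h => hw.ne_zero (by rw [h, zero_mul])
  have ht0 : t ≠ 0 := fun h => hw.ne_zero (by rw [h, mul_zero])
  have hco : Nat.Coprime r t := Nat.coprime_of_squarefree_mul hw
  have hr : Squarefree r := hw.squarefree_of_dvd (Dvd.intro _ rfl)
  have ht : Squarefree t := hw.squarefree_of_dvd (Dvd.intro_left _ rfl)
  have hdisj : Disjoint r.primeFactors t.primeFactors := hco.disjoint_primeFactors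
  rw [hco.primeFactors_mul, Finset.prod_union hdisj, Finset.card_union_of_disjoint hdisj]
  have h1 : ∏ p ∈ r.primeFactors, bnd r t p = 6 ^ r.primeFactors.card / (r : ℝ) := by
    have h2 : ∏ p ∈ r.primeFactors, bnd r t p = ∏ p ∈ r.primeFactors, (6 / (p : ℝ)) := by
      refine Finset.prod_congr rfl fun p hp => ?_
      unfold bnd
      rw [if_pos (Nat.dvd_of_mem_primeFactors hp)]
    rw [h2, Finset.prod_div_distrib, Finset.prod_const]
    congr 1
    conv_rhs => rw [← Nat.prod_primeFactors_of_squarefree hr]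
    push_cast
    rfl
  have h3 : ∏ p ∈ t.primeFactors, bnd r t p = 6 ^ t.primeFactors.card / (t : ℝ) ^ 2 := by
    have h2 : ∏ p ∈ t.primeFactors, bnd r t p = ∏ p ∈ t.primeFactors, (6 / (p : ℝ) ^ 2) := by
      refine Finset.prod_congr rfl fun p hp => ?_
      unfold bnd
      have hnr : ¬ p ∣ r := fun h =>
        Nat.not_coprime_of_dvd_of_dvd (Nat.prime_of_mem_primeFactors hp).one_lt h
          (Nat.dvd_of_mem_primeFactors hp) hco
      rw [if_neg hnr, if_pos (Nat.dvd_of_mem_primeFactors hp)]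
    rw [h2, Finset.prod_div_distrib, Finset.prod_const, Finset.prod_pow]
    congr 2
    conv_rhs => rw [← Nat.prod_primeFactors_of_squarefree ht]
    push_cast
    rfl
  rw [h1, h3, pow_add]
  have hr' : (r : ℝ) ≠ 0 := by exact_mod_cast hr0
  have ht' : (t : ℝ) ≠ 0 := by exact_mod_cast ht0
  field_simp

theorem bnd_nonneg (r t p : ℕ) : 0 ≤ bnd r t p := by
  unfold bnd
  split_ifs <;> positivity

/-- One pair `(m₁, m₂)`. -/
theorem one_pair (n r t m₁ m₂ : ℕ) (hw : Squarefree (r * t)) (h1 : m₁ ≠ 0) (h2 : m₂ ≠ 0) :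
    ∑ y ∈ (Finset.Icc 1 n) ×ˢ (Finset.Icc 1 n), |LL r t m₁ m₂ y.1 y.2| / ((y.1 : ℝ) * y.2) ≤
      HH n ^ 2 * (6 ^ (r * t).primeFactors.card / ((r : ℝ) * (t : ℝ) ^ 2)) *
        ∏ p ∈ (m₁.primeFactors ∪ m₂.primeFactors) \ (r * t).primeFactors, (6 / (p : ℝ)) := by
  classical
  have h3 := inner n (fun p => ec (cl r t p) (tt p m₁ m₂)) (m₁ * m₂ * (r * t)).primeFactors
    (fun p hp => Nat.prime_of_mem_primeFactors hp) 1 1 Nat.one_pos Nat.one_pos
    (fun p hp h => (Nat.prime_of_mem_primeFactors hp).one_lt.ne' (Nat.dvd_one.1 h))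
    (fun p hp h => (Nat.prime_of_mem_primeFactors hp).one_lt.ne' (Nat.dvd_one.1 h))
  rw [Finset.filter_true_of_mem fun y _ => ⟨one_dvd _, one_dvd _⟩] at h3
  have h4 : ∀ y : ℕ × ℕ, |LL r t m₁ m₂ y.1 y.2| =
      ∏ p ∈ (m₁ * m₂ * (r * t)).primeFactors, |loc (ec (cl r t p) (tt p m₁ m₂)) p y.1 y.2| := by
    intro y
    rw [LL, Finset.abs_prod]
  simp only [h4]
  refine h3.trans ?_
  have h5 : ∏ p ∈ (m₁ * m₂ * (r * t)).primeFactors, mu (ec (cl r t p) (tt p m₁ m₂)) p ≤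
      ∏ p ∈ (m₁ * m₂ * (r * t)).primeFactors, bnd r t p :=
    Finset.prod_le_prod (fun p _ => mu_nonneg _ p) fun p hp => mu_le_bnd r t m₁ m₂ p hp
  have h6 : (m₁ * m₂ * (r * t)).primeFactors = (r * t).primeFactors ∪
      ((m₁.primeFactors ∪ m₂.primeFactors) \ (r * t).primeFactors) := by
    rw [Nat.primeFactors_mul (Nat.mul_ne_zero h1 h2) hw.ne_zero, Nat.primeFactors_mul h1 h2,
      Finset.union_sdiff_self_eq_union, Finset.union_comm]
  have h7 : ∏ p ∈ (m₁ * m₂ * (r * t)).primeFactors, bnd r t p =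
      6 ^ (r * t).primeFactors.card / ((r : ℝ) * (t : ℝ) ^ 2) *
        ∏ p ∈ (m₁.primeFactors ∪ m₂.primeFactors) \ (r * t).primeFactors, (6 / (p : ℝ)) := by
    rw [h6, Finset.prod_union Finset.disjoint_sdiff, prod_bnd r t hw]
    congr 1
    refine Finset.prod_congr rfl fun p hp => ?_
    rw [Finset.mem_sdiff, Finset.mem_union] at hp
    have hpp : p.Prime := by
      rcases hp.1 with h | h
      · exact Nat.prime_of_mem_primeFactors h
      · exact Nat.prime_of_mem_primeFactors h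
    have h8 : ¬ p ∣ r * t := fun h => hp.2 (Nat.mem_primeFactors.2 ⟨hpp, h, hw.ne_zero⟩)
    unfold bnd
    rw [if_neg fun h => h8 (h.mul_right _), if_neg fun h => h8 (h.mul_left _)]
  rw [h7] at h5
  have h8 : 0 ≤ HH n ^ 2 := sq_nonneg _
  calc 1 / (((1 : ℕ) : ℝ) * ((1 : ℕ) : ℝ)) * HH n ^ 2 *
        ∏ p ∈ (m₁ * m₂ * (r * t)).primeFactors, mu (ec (cl r t p) (tt p m₁ m₂)) p
      = HH n ^ 2 * ∏ p ∈ (m₁ * m₂ * (r * t)).primeFactors, mu (ec (cl r t p) (tt p m₁ m₂)) p := by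
        norm_num
    _ ≤ HH n ^ 2 * (6 ^ (r * t).primeFactors.card / ((r : ℝ) * (t : ℝ) ^ 2) *
        ∏ p ∈ (m₁.primeFactors ∪ m₂.primeFactors) \ (r * t).primeFactors, (6 / (p : ℝ))) :=
        mul_le_mul_of_nonneg_left h5 h8
    _ = _ := by ring

theorem one_le_Ef (w : ℕ) : 1 ≤ Ef w := by
  unfold Ef
  induction w.primeFactors using Finset.induction_on with
  | empty => simp
  | insert p S hp ih =>
    rw [Finset.prod_insert hp]
    have : 0 ≤ 30 / Real.sqrt p := by positivity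
    nlinarith

theorem pf_LLB (hABS : T_ABS) : T_LLB := by
  classical
  intro κ hκ
  obtain ⟨C, hC, hA⟩ := hABS κ 24 0 0 hκ le_rfl
  refine ⟨C * 2 ^ 20, by positivity, ?_⟩
  intro X r t hX hw
  set n : ℕ := ⌊X⌋₊ with hn
  set W : Finset ℕ := (r * t).primeFactors with hW
  have hr0 : r ≠ 0 := fun h => hw.ne_zero (by rw [h, zero_mul])
  have ht0 : t ≠ 0 := fun h => hw.ne_zero (by rw [h, mul_zero])
  have hr' : (0 : ℝ) < r := by exact_mod_cast Nat.pos_of_ne_zero hr0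
  have ht' : (0 : ℝ) < t := by exact_mod_cast Nat.pos_of_ne_zero ht0
  have hlog : 1 ≤ Real.log X := by
    rw [← Real.log_exp 1]
    refine Real.log_le_log (Real.exp_pos 1) ?_
    have := Real.exp_one_lt_d9
    linarith
  have hH : HH n ≤ 2 * Real.log X := by
    have := HH_le X (by linarith)
    linarith
  have h1 : ∑ m₁ ∈ (Finset.Icc 1 n).filter (fun m => Squarefree m),
      ∑ m₂ ∈ (Finset.Icc 1 n).filter (fun m => Squarefree m),
      ∑ y ∈ (Finset.Icc 1 n) ×ˢ (Finset.Icc 1 n), |LL r t m₁ m₂ y.1 y.2| / ((y.1 : ℝ) * y.2) ≤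
      ∑ m₁ ∈ (Finset.Icc 1 n).filter (fun m => Squarefree m),
      ∑ m₂ ∈ (Finset.Icc 1 n).filter (fun m => Squarefree m),
        HH n ^ 2 * (6 ^ W.card / ((r : ℝ) * (t : ℝ) ^ 2)) *
        ∏ p ∈ (m₁.primeFactors ∪ m₂.primeFactors) \ W, (6 / (p : ℝ)) := by
    refine Finset.sum_le_sum fun m₁ hm₁ => Finset.sum_le_sum fun m₂ hm₂ => ?_
    rw [Finset.mem_filter] at hm₁ hm₂
    exact one_pair n r t m₁ m₂ hw hm₁.2.ne_zero hm₂.2.ne_zero
  refine h1.trans ?_
  have h2 : ∑ m₁ ∈ (Finset.Icc 1 n).filter (fun m => Squarefree m),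
      ∑ m₂ ∈ (Finset.Icc 1 n).filter (fun m => Squarefree m),
        HH n ^ 2 * (6 ^ W.card / ((r : ℝ) * (t : ℝ) ^ 2)) *
        ∏ p ∈ (m₁.primeFactors ∪ m₂.primeFactors) \ W, (6 / (p : ℝ)) =
      HH n ^ 2 * (6 ^ W.card / ((r : ℝ) * (t : ℝ) ^ 2)) *
        ∑ T₁ ∈ TT n, ∑ T₂ ∈ TT n, ∏ p ∈ (T₁ ∪ T₂) \ W, (6 / (p : ℝ)) := by
    rw [Finset.mul_sum, ← sum_TT (fun T₁ => HH n ^ 2 * (6 ^ W.card / ((r : ℝ) * (t : ℝ) ^ 2)) *
      ∑ T₂ ∈ TT n, ∏ p ∈ (T₁ ∪ T₂) \ W, (6 / (p : ℝ)))]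
    refine Finset.sum_congr rfl fun m₁ _ => ?_
    rw [Finset.mul_sum, ← sum_TT (fun T₂ => HH n ^ 2 * (6 ^ W.card / ((r : ℝ) * (t : ℝ) ^ 2)) *
      ∏ p ∈ (m₁.primeFactors ∪ T₂) \ W, (6 / (p : ℝ)))]
  rw [h2]
  have h3 := sum_pairs n W
  have h4 := hA (r * t) hw
  rw [← hW, pow_zero, mul_one] at h4
  have h5 : (1 : ℝ) ≤ Ef (r * t) ^ 4 := one_le_pow₀ (one_le_Ef _)
  have h6 : (24 : ℝ) ^ W.card ≤ C * ((r * t : ℕ) : ℝ) ^ κ := by
    have h7 : (24 : ℝ) ^ W.card ≤ (24 : ℝ) ^ W.card * Ef (r * t) ^ 4 :=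
      le_mul_of_one_le_right (by positivity) h5
    refine h7.trans ?_
    exact_mod_cast h4
  have hH0 := HH_nonneg n
  have h8 : HH n ^ 20 ≤ 2 ^ 20 * Real.log X ^ 30 := by
    calc HH n ^ 20 ≤ (2 * Real.log X) ^ 20 := pow_le_pow_left₀ hH0 hH 20
      _ = 2 ^ 20 * Real.log X ^ 20 := by rw [mul_pow]
      _ ≤ 2 ^ 20 * Real.log X ^ 30 :=
          mul_le_mul_of_nonneg_left (pow_le_pow_right₀ hlog (by norm_num)) (by positivity)
  have h9 : 0 ≤ HH n ^ 2 * (6 ^ W.card / ((r : ℝ) * (t : ℝ) ^ 2)) := by positivity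
  calc HH n ^ 2 * (6 ^ W.card / ((r : ℝ) * (t : ℝ) ^ 2)) *
        ∑ T₁ ∈ TT n, ∑ T₂ ∈ TT n, ∏ p ∈ (T₁ ∪ T₂) \ W, (6 / (p : ℝ))
      ≤ HH n ^ 2 * (6 ^ W.card / ((r : ℝ) * (t : ℝ) ^ 2)) * (4 ^ W.card * HH n ^ 18) :=
        mul_le_mul_of_nonneg_left h3 h9
    _ = (24 : ℝ) ^ W.card * HH n ^ 20 / ((r : ℝ) * (t : ℝ) ^ 2) := by
        rw [show (24 : ℝ) = 6 * 4 by norm_num, mul_pow]
        ring
    _ ≤ (C * ((r * t : ℕ) : ℝ) ^ κ) * (2 ^ 20 * Real.log X ^ 30) / ((r : ℝ) * (t : ℝ) ^ 2) := by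
        gcongr
    _ = C * 2 ^ 20 * Real.log X ^ (30 : ℕ) *
        (((r * t : ℕ) : ℝ) ^ κ / ((r : ℝ) * (t : ℝ) ^ 2)) := by ring

end Pool.Agent.H74.ADM.LLB
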