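import Pool.Agent.H65.AD.TargetsC

/-!
Row SMR of the board `adm_modules` (MP_347b49_nt): removal of a smooth dependence on the
summation variable.
-/

set_option autoImplicit false

open MeasureTheory Set Filter
open scoped Real

namespace Pool.Agent.H74.ADM

open Pool.Agent.H31.CN Pool.Agent.H95.AD Pool.Agent.H50.CN Pool.Agent.H65.AD

theorem cs_int (f : ℝ → ℝ) (c b : ℝ) (hcb : c ≤ b) (hf : ContinuousOn f (Icc c b)) :
    (∫ x in c..b, f x) ^ 2 ≤ (b - c) * ∫ x in c..b, f x ^ 2 := by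
  rcases hcb.eq_or_lt with h | h
  · rw [h]
    simp
  · have i1 : IntervalIntegrable f volume c b := hf.intervalIntegrable_of_Icc hcb
    have i2 : IntervalIntegrable (fun x => f x ^ 2) volume c b :=
      (hf.pow 2).intervalIntegrable_of_Icc hcb
    set I : ℝ := ∫ x in c..b, f x with hI
    set m : ℝ := I / (b - c) with hm
    have h0 : 0 ≤ ∫ x in c..b, (f x - m) ^ 2 :=
      intervalIntegral.integral_nonneg hcb fun x _ => sq_nonneg _
    have h1 : ∫ x in c..b, (f x - m) ^ 2 =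
        (∫ x in c..b, f x ^ 2) - 2 * m * I + m ^ 2 * (b - c) := by
      have h2 : ∀ x, (f x - m) ^ 2 = (f x ^ 2 - 2 * m * f x) + m ^ 2 := fun x => by ring
      simp only [h2]
      rw [intervalIntegral.integral_add (i2.sub (i1.const_mul (2 * m))) (by simp),
        intervalIntegral.integral_sub i2 (i1.const_mul (2 * m)),
        intervalIntegral.integral_const_mul, intervalIntegral.integral_const, smul_eq_mul]
      ring
    have h3 : 0 < b - c := by linarith
    have h4 : m * (b - c) = I := by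
      rw [hm]
      field_simp
    have h5 : 0 ≤ (b - c) * ((∫ x in c..b, f x ^ 2) - 2 * m * I + m ^ 2 * (b - c)) := by
      rw [← h1]
      exact mul_nonneg h3.le h0
    have h6 : (b - c) * ((∫ x in c..b, f x ^ 2) - 2 * m * I + m ^ 2 * (b - c)) =
        (b - c) * (∫ x in c..b, f x ^ 2) - 2 * (m * (b - c)) * I + (m * (b - c)) ^ 2 := by ring
    rw [h6, h4] at h5
    nlinarith

theorem pf_SMR : T_SMR := by
  intro s a b B Φ Ψ ha hab hB hs hΦ hΨ hsum
  have hint : ∀ D ∈ s, IntervalIntegrable (fun u => Ψ u D ^ 2) volume a b := fun D hD =>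
    ((hΨ D hD).pow 2).intervalIntegrable_of_Icc hab
  have key : ∀ D ∈ s, Φ D D ^ 2 ≤ 2 * Φ b D ^ 2 + 2 * (b - a) * ∫ u in a..b, Ψ u D ^ 2 := by
    intro D hD
    obtain ⟨h1, h2⟩ := hs D hD
    have hsub : Icc (D : ℝ) b ⊆ Icc a b := Icc_subset_Icc_left h1
    have c1 : ContinuousOn (fun u => Ψ u D) (Icc (D : ℝ) b) := (hΨ D hD).mono hsub
    have i1 : IntervalIntegrable (fun u => Ψ u D) volume (D : ℝ) b :=
      c1.intervalIntegrable_of_Icc h2
    have h3 : ∫ u in (D : ℝ)..b, Ψ u D = Φ b D - Φ D D := by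
      refine intervalIntegral.integral_eq_sub_of_hasDerivAt (f := fun v => Φ v D) ?_ i1
      intro u hu
      rw [uIcc_of_le h2] at hu
      exact hΦ D hD u (hsub hu)
    have h4 := cs_int (fun u => Ψ u D) D b h2 c1
    rw [h3] at h4
    have h5 : ∫ u in (D : ℝ)..b, Ψ u D ^ 2 ≤ ∫ u in a..b, Ψ u D ^ 2 := by
      refine intervalIntegral.integral_mono_interval h1 h2 le_rfl ?_ (hint D hD)
      exact Filter.Eventually.of_forall fun u => sq_nonneg _
    have h6 : 0 ≤ ∫ u in a..b, Ψ u D ^ 2 :=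
      intervalIntegral.integral_nonneg hab fun u _ => sq_nonneg _
    have h7 : (b - D) * ∫ u in (D : ℝ)..b, Ψ u D ^ 2 ≤ (b - a) * ∫ u in a..b, Ψ u D ^ 2 := by
      have h8 : b - D ≤ b - a := by linarith
      have h9 : 0 ≤ b - (D : ℝ) := by linarith
      calc (b - D) * ∫ u in (D : ℝ)..b, Ψ u D ^ 2 ≤ (b - D) * ∫ u in a..b, Ψ u D ^ 2 :=
            mul_le_mul_of_nonneg_left h5 h9
        _ ≤ (b - a) * ∫ u in a..b, Ψ u D ^ 2 := mul_le_mul_of_nonneg_right h8 h6
    have h10 : (Φ b D - Φ D D) ^ 2 ≤ (b - a) * ∫ u in a..b, Ψ u D ^ 2 := h4.trans h7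
    nlinarith [sq_nonneg (Φ D D - 2 * Φ b D)]
  have h1 : ∑ D ∈ s, ∫ u in a..b, Ψ u D ^ 2 ≤ (b - a) * B := by
    rw [← intervalIntegral.integral_finsetSum fun D hD => hint D hD]
    have h2 : ∫ u in a..b, ∑ D ∈ s, Ψ u D ^ 2 ≤ ∫ _u in a..b, B := by
      refine intervalIntegral.integral_mono_on hab ?_ (by simp) fun u hu => hsum u hu
      have h3 := IntervalIntegrable.sum s fun D hD => hint D hD
      have h4 : (∑ D ∈ s, fun u => Ψ u D ^ 2) = fun u => ∑ D ∈ s, Ψ u D ^ 2 := by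
        funext u
        rw [Finset.sum_apply]
      rw [h4] at h3
      exact h3
    rw [intervalIntegral.integral_const, smul_eq_mul] at h2
    exact h2
  have h2 := Finset.sum_le_sum key
  rw [Finset.sum_add_distrib, ← Finset.mul_sum, ← Finset.mul_sum] at h2
  have h3 : 0 ≤ 2 * (b - a) := by linarith
  have h4 := mul_le_mul_of_nonneg_left h1 h3
  calc ∑ D ∈ s, Φ D D ^ 2 ≤ _ := h2
    _ ≤ 2 * ∑ D ∈ s, Φ b D ^ 2 + 2 * (b - a) * ((b - a) * B) := by linarith
    _ = 2 * ∑ D ∈ s, Φ b D ^ 2 + 2 * (b - a) ^ 2 * B := by ring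

end Pool.Agent.H74.ADM
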